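import Pool.Agent.Y787.PStrat

/-!
# `p`-adic Schanuel conjecture: relations of bounded degree over arbitrary numbers

Let `x_1, ..., x_n` be arbitrary elements of the algebraic closure of `ℚ_p`, and let `W` be a space
of dimension `N` over the field `ℚ̄` of algebraic numbers which consists of linear forms, with
algebraic coefficients, in `1` and `p`-adic logarithms of algebraic numbers.  Consider the tuples
`y ∈ W ^ m` such that `(x, y)` satisfies a nontrivial polynomial relation of degree at most `D` over
`ℚ̄`, while `x` together with any `s` independent linear combinations of the `y_i` satisfies none.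
They lie in an algebraic subset of `W ^ m` of dimension at most

`(m - 1 - s) N + m (m - 1) + binom(D + n + m, n + m) - 1`.

The second part counts the tuples of logarithms with these properties.  The third part is the case
`n = 0`, `s = 1`: the tuples of `ℚ`-linearly independent `p`-adic logarithms of algebraic numbers
which satisfy a relation of degree at most `D`.

The proof uses derivations of ultrapowers and the hyperplane case of the linear subgroup theorem of
Waldschmidt and Roy over the `p`-adic numbers (`Pool.Agent.W254.PA`) as the complex case `s ≤ 1`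
in `Pool.Agent.TH519.HS`; new is the reduction of a relation of minimal degree to several linear
combinations (`Pool.Agent.Y787.HS.Strat`).
-/

set_option autoImplicit false

namespace Pool.Agent.Results.MP_c50dba_nt.BoundedDegreeStrata

/-- `L` is the Iwasawa logarithm on the algebraic closure of `ℚ_p`. -/
structure IsIwasawaLog (p : ℕ) [Fact p.Prime] (L : PadicAlgCl p → PadicAlgCl p) : Prop where
  mul : ∀ x y : PadicAlgCl p, x ≠ 0 → y ≠ 0 → L (x * y) = L x + L y
  prime : L ((p : ℕ) : PadicAlgCl p) = 0
  ser : ∀ z : PadicAlgCl p, ‖z‖ < 1 →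
    HasSum (fun n : ℕ => (-1 : PadicAlgCl p) ^ n * z ^ (n + 1) / ((n : PadicAlgCl p) + 1))
      (L (1 + z))

/-- The space of all linear combinations with algebraic coefficients of `1` and of the values of `L`
at algebraic numbers. -/
noncomputable def LogForms {p : ℕ} [Fact p.Prime] (L : PadicAlgCl p → PadicAlgCl p) :
    Submodule (algebraicClosure ℚ (PadicAlgCl p)) (PadicAlgCl p) :=
  Submodule.span (algebraicClosure ℚ (PadicAlgCl p))
    ({1} ∪ {z | ∃ α : PadicAlgCl p, α ≠ 0 ∧ IsAlgebraic ℚ α ∧ z = L α})

/-- The numbers `z i` satisfy a nontrivial polynomial relation of total degree at most `D` with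
algebraic coefficients. -/
def HasRelation {p : ℕ} [Fact p.Prime] (D : ℕ) {σ : Type} (z : σ → PadicAlgCl p) : Prop :=
  ∃ f : MvPolynomial σ (algebraicClosure ℚ (PadicAlgCl p)), f ≠ 0 ∧ f.totalDegree ≤ D ∧
    MvPolynomial.aeval z f = 0

/-- The numbers `x i`, `y j` together satisfy a nontrivial relation of degree at most `D`, but the
`x i` together with `s` linear combinations of the `y j` with linearly independent algebraic
coefficient vectors never do. -/
def InStratum {p : ℕ} [Fact p.Prime] (D s : ℕ) {n m : ℕ} (x : Fin n → PadicAlgCl p)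
    (y : Fin m → PadicAlgCl p) : Prop :=
  HasRelation D (Sum.elim x y) ∧
    ∀ u : Fin s → Fin m → algebraicClosure ℚ (PadicAlgCl p),
      LinearIndependent (algebraicClosure ℚ (PadicAlgCl p)) u →
        ¬ HasRelation D (Sum.elim x fun k => ∑ j, (u k j : PadicAlgCl p) * y j)

/-- **Main result.** -/
theorem result (p : ℕ) [Fact p.Prime] (L : PadicAlgCl p → PadicAlgCl p) (hL : IsIwasawaLog p L)
    (m D : ℕ) :
    (∀ (n s : ℕ), s < m → ∀ (x : Fin n → PadicAlgCl p)
      (W : Submodule (algebraicClosure ℚ (PadicAlgCl p)) (PadicAlgCl p))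
      [FiniteDimensional (algebraicClosure ℚ (PadicAlgCl p)) W], W ≤ LogForms L →
      ∀ φ : Fin (m * (m - 1) +
          (m - 1 - s) * Module.finrank (algebraicClosure ℚ (PadicAlgCl p)) W +
          (D + (n + m)).choose (n + m)) →
        ((Fin m → W) →ₗ[algebraicClosure ℚ (PadicAlgCl p)] algebraicClosure ℚ (PadicAlgCl p)),
      ∃ P : MvPolynomial (Fin (m * (m - 1) +
          (m - 1 - s) * Module.finrank (algebraicClosure ℚ (PadicAlgCl p)) W +
          (D + (n + m)).choose (n + m))) (algebraicClosure ℚ (PadicAlgCl p)), P ≠ 0 ∧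
        ∀ y : Fin m → W, InStratum D s x (fun i => (y i : PadicAlgCl p)) →
          MvPolynomial.eval (fun k => φ k y) P = 0) ∧
    (∀ (n s : ℕ), s < m → ∀ (x : Fin n → PadicAlgCl p) (N : ℕ) (l : Fin N → PadicAlgCl p),
      (∀ j, ∃ α : PadicAlgCl p, α ≠ 0 ∧ IsAlgebraic ℚ α ∧ l j = L α) →
      LinearIndependent ℚ l →
      ∃ κ : ℕ, ∀ H : ℕ, 1 ≤ H →
        Set.ncard {A : Fin m → Fin N → ℤ | (∀ i j, |A i j| ≤ H) ∧
          InStratum D s x (fun i => ∑ j, (A i j : PadicAlgCl p) * l j)} ≤
        κ * H ^ (m * (m - 1) + (m - 1 - s) * N + (D + (n + m)).choose (n + m) - 1)) ∧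
    (1 < m → ∀ (N : ℕ) (l : Fin N → PadicAlgCl p),
      (∀ j, ∃ α : PadicAlgCl p, α ≠ 0 ∧ IsAlgebraic ℚ α ∧ l j = L α) →
      LinearIndependent ℚ l →
      ∃ κ : ℕ, ∀ H : ℕ, 1 ≤ H →
        Set.ncard {A : Fin m → Fin N → ℤ | (∀ i j, |A i j| ≤ H) ∧
          LinearIndependent ℚ (fun i => ∑ j, (A i j : PadicAlgCl p) * l j) ∧
          HasRelation D (fun i => ∑ j, (A i j : PadicAlgCl p) * l j)} ≤
        κ * H ^ (m * (m - 1) + (m - 2) * N + (D + m).choose m - 1)) :=
  have hL' : Pool.Agent.W245.PB.IsIwasawaLog p L := ⟨hL.mul, hL.prime, hL.ser⟩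
  ⟨fun _ _ hs x W _ hW φ => Pool.Agent.Y787.stratP_dim hL' hs x W hW φ,
    fun _ _ hs x _ l hl hli => Pool.Agent.Y787.stratP_count hL' hs x l hl hli,
    fun hm _ l hl hli => Pool.Agent.Y787.indep_count hL' hm l hl hli⟩

end Pool.Agent.Results.MP_c50dba_nt.BoundedDegreeStrata
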