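import Pool.Agent.Y787.PFin

/-!
# `p`-adic Schanuel conjecture: all other combinations have large degree over a generic combination

Let `λ_1, ..., λ_N` be `p`-adic logarithms of algebraic numbers which are linearly independent over
`ℚ`, let `t` be any element of the algebraic closure of `ℚ_p` and `c = ⌊(N + 1) ^ 2 / 4⌋`.  Outside a
hypersurface of vectors `b` of algebraic numbers (in particular of integers) the number
`x = b_1 λ_1 + ... + b_N λ_N` has the following property: every linear combination `y` of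
`1, t, λ_1, ..., λ_N` with algebraic coefficients is a combination of `1` and `x`, or
`1, y, ..., y ^ (c - 1)` are linearly independent over the field `ℚ̄(x)`.

The complex analogue is the starting result `MP_60829e_nt.EveryOtherCombination`.
-/

set_option autoImplicit false

namespace Pool.Agent.Results.MP_c50dba_nt.EveryOtherCombination

/-- `L` is the Iwasawa logarithm on the algebraic closure of `ℚ_p`. -/
structure IsIwasawaLog (p : ℕ) [Fact p.Prime] (L : PadicAlgCl p → PadicAlgCl p) : Prop where
  mul : ∀ x y : PadicAlgCl p, x ≠ 0 → y ≠ 0 → L (x * y) = L x + L y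
  prime : L ((p : ℕ) : PadicAlgCl p) = 0
  ser : ∀ z : PadicAlgCl p, ‖z‖ < 1 →
    HasSum (fun n : ℕ => (-1 : PadicAlgCl p) ^ n * z ^ (n + 1) / ((n : PadicAlgCl p) + 1))
      (L (1 + z))

/-- **Main result.** -/
theorem result (p : ℕ) [Fact p.Prime] (L : PadicAlgCl p → PadicAlgCl p) (hL : IsIwasawaLog p L)
    (N : ℕ) (l : Fin N → PadicAlgCl p)
    (hl : ∀ j, ∃ α : PadicAlgCl p, α ≠ 0 ∧ IsAlgebraic ℚ α ∧ l j = L α)
    (hli : LinearIndependent ℚ l) (t : PadicAlgCl p) :
    ∃ Δ : MvPolynomial (Fin N) (algebraicClosure ℚ (PadicAlgCl p)), Δ ≠ 0 ∧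
      ∀ b : Fin N → algebraicClosure ℚ (PadicAlgCl p), MvPolynomial.eval b Δ ≠ 0 →
        ∀ y ∈ Submodule.span (algebraicClosure ℚ (PadicAlgCl p)) ({1, t} ∪ Set.range l),
          y ∉ Submodule.span (algebraicClosure ℚ (PadicAlgCl p))
            {1, ∑ j, (b j : PadicAlgCl p) * l j} →
            ∀ q : Fin ((N + 1) ^ 2 / 4) → Polynomial (algebraicClosure ℚ (PadicAlgCl p)),
              ∑ i, Polynomial.aeval (∑ j, (b j : PadicAlgCl p) * l j) (q i) * y ^ (i : ℕ) = 0 →
                q = 0 :=
  have hL' : Pool.Agent.W245.PB.IsIwasawaLog p L := ⟨hL.mul, hL.prime, hL.ser⟩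
  Pool.Agent.Y787.everyP hL' l hl hli t

end Pool.Agent.Results.MP_c50dba_nt.EveryOtherCombination
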