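import Pool.Agent.Y787.AS.VarFin

/-!
# `p`-adic logarithms of algebraic numbers on an arbitrary variety: the expected number, up to a
bounded power

Let `l_1, ..., l_N` be `p`-adic logarithms of algebraic numbers which are linearly independent over
`ℚ`, and let `V` be the zero set of polynomials in `m` variables with arbitrary coefficients in the
algebraic closure of `ℚ_p`.  The `p`-adic Schanuel conjecture predicts that the `l_j` are
algebraically independent; then, if `V` is defined over the algebraic numbers, the point `A l` given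
by an integer `m × N` matrix `A` lies in `V` only for a trivial reason: the columns of `A` lie in a
rational linear space contained in `V`.  We show for every `V`:

* Counting.  Let `ρ` be the greatest dimension of a rational subspace `R` of `ℚ ^ m` such that `V`
  contains a translate `A₀ l + R_E` (`E` the algebraic closure of `ℚ_p`) for some integer matrix
  `A₀`.  The number of the integer matrices `A` with entries of absolute value at most `H` and
  `A l ∈ V` is at least `H ^ (ρ N) / κ` and at most `κ H ^ (ρ N + (m - ρ) (m - 1))`.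
* Dimension.  Let `W` be a space of finite dimension over the field `ℚ̄` of algebraic numbers which
  consists of linear forms in `1` and `p`-adic logarithms of algebraic numbers.  The points `y` of
  `V` with coordinates in `W` such that `V` contains no translate `y + R_E` of a linear space `R`
  defined over `ℚ̄` of dimension greater than `ρ` lie in an algebraic subset of `W ^ m` of dimension
  at most `ρ dim W + (m - ρ) (m - 1)`.

The complex analogue is `MP_60829e_nt.ExpectedExponent` (this run); the proof is the same, with the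
`p`-adic linear subgroup theorem (hyperplane case) of the starting files.  A first order version
(bounds at points with few rational tangent vectors) for complex logarithms is the starting result
`MP_c82530_nt.PointsOnComplexVarieties`.
-/

set_option autoImplicit false

namespace Pool.Agent.Results.MP_c50dba_nt.ExpectedExponent

open MvPolynomial

/-- `L` is the Iwasawa logarithm on the algebraic closure of `ℚ_p`. -/
structure IsIwasawaLog (p : ℕ) [Fact p.Prime] (L : PadicAlgCl p → PadicAlgCl p) : Prop where
  mul : ∀ x y : PadicAlgCl p, x ≠ 0 → y ≠ 0 → L (x * y) = L x + L y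
  prime : L ((p : ℕ) : PadicAlgCl p) = 0
  ser : ∀ z : PadicAlgCl p, ‖z‖ < 1 →
    HasSum (fun n : ℕ => (-1 : PadicAlgCl p) ^ n * z ^ (n + 1) / ((n : PadicAlgCl p) + 1))
      (L (1 + z))

/-- The space of all linear combinations with algebraic coefficients of `1` and of the values of `L`
at algebraic numbers. -/
noncomputable def LogForms {p : ℕ} [Fact p.Prime] (L : PadicAlgCl p → PadicAlgCl p) :
    Submodule (algebraicClosure ℚ (PadicAlgCl p)) (PadicAlgCl p) :=
  Submodule.span (algebraicClosure ℚ (PadicAlgCl p))
    ({1} ∪ {z | ∃ α : PadicAlgCl p, α ≠ 0 ∧ IsAlgebraic ℚ α ∧ z = L α})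

/-- The zero set of the polynomials `F s` contains the translate `y + R_E` of the span over `E` of the
space `R` defined over `k`. -/
def ContainsTranslate (k : Type) {E : Type} [Field k] [Field E] [Algebra k E] {m r : ℕ}
    (F : Fin r → MvPolynomial (Fin m) E) (y : Fin m → E) (R : Submodule k (Fin m → k)) : Prop :=
  ∀ s, ∀ c ∈ Submodule.span E {x : Fin m → E | ∃ v ∈ R, x = fun i => algebraMap k E (v i)},
    eval (fun i => y i + c i) (F s) = 0

/-- The point `A l`. -/
noncomputable def point {E : Type} [Field E] {m N : ℕ} (l : Fin N → E)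
    (A : Fin m → Fin N → ℤ) : Fin m → E :=
  fun i => ∑ j, (A i j : E) * l j

/-- The number of the integer matrices `A` with entries of absolute value at most `H` such that the
point `A l` is a zero of all `F s`. -/
noncomputable def number {E : Type} [Field E] {m r N : ℕ} (F : Fin r → MvPolynomial (Fin m) E)
    (l : Fin N → E) (H : ℕ) : ℕ :=
  Set.ncard {A : Fin m → Fin N → ℤ | (∀ i j, |A i j| ≤ H) ∧ ∀ s, eval (point l A) (F s) = 0}

/-- The set `Z` of `m`-tuples of elements of `W` lies in an algebraic subset of dimension at most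
`d`: any `d + 1` linear forms satisfy a nontrivial polynomial relation on `Z`. -/
def DimensionAtMost {K E : Type} [Field K] [Field E] [Algebra K E] (W : Submodule K E) {m : ℕ}
    (d : ℕ) (Z : Set (Fin m → W)) : Prop :=
  ∀ φ : Fin (d + 1) → ((Fin m → W) →ₗ[K] K),
    ∃ P : MvPolynomial (Fin (d + 1)) K, P ≠ 0 ∧ ∀ y ∈ Z, eval (fun k => φ k y) P = 0

/-- **Main result.** -/
theorem result (p : ℕ) [Fact p.Prime] (L : PadicAlgCl p → PadicAlgCl p) (hL : IsIwasawaLog p L)
    (m r : ℕ) (F : Fin r → MvPolynomial (Fin m) (PadicAlgCl p)) :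
    (∀ (N : ℕ) (l : Fin N → PadicAlgCl p),
      (∀ j, ∃ α : PadicAlgCl p, α ≠ 0 ∧ IsAlgebraic ℚ α ∧ l j = L α) →
      LinearIndependent ℚ l → ∀ ρ : ℕ,
      IsGreatest {d : ℕ | ∃ (A : Fin m → Fin N → ℤ) (R : Submodule ℚ (Fin m → ℚ)),
        Module.finrank ℚ R = d ∧ ContainsTranslate ℚ F (point l A) R} ρ →
      ∃ κ : ℕ, ∀ H : ℕ, κ ≤ H → H ^ (ρ * N) ≤ κ * number F l H ∧
        number F l H ≤ κ * H ^ (ρ * N + (m - ρ) * (m - 1))) ∧
    ∀ (W : Submodule (algebraicClosure ℚ (PadicAlgCl p)) (PadicAlgCl p))
      [FiniteDimensional (algebraicClosure ℚ (PadicAlgCl p)) W],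
      W ≤ LogForms L → ∀ ρ ≤ m,
      DimensionAtMost W
        (ρ * Module.finrank (algebraicClosure ℚ (PadicAlgCl p)) W + (m - ρ) * (m - 1))
        {y : Fin m → W | (∀ s, eval (fun i => (y i : PadicAlgCl p)) (F s) = 0) ∧
          ∀ R : Submodule (algebraicClosure ℚ (PadicAlgCl p))
              (Fin m → algebraicClosure ℚ (PadicAlgCl p)),
            ContainsTranslate (algebraicClosure ℚ (PadicAlgCl p)) F
              (fun i => (y i : PadicAlgCl p)) R →
            Module.finrank (algebraicClosure ℚ (PadicAlgCl p)) R ≤ ρ} := by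
  have hL' : Pool.Agent.W245.PB.IsIwasawaLog p L := ⟨hL.mul, hL.prime, hL.ser⟩
  refine ⟨?_, ?_⟩
  · intro N l hl hli ρ hρ
    obtain ⟨⟨A, R, hR1, hR2⟩, hmax⟩ := hρ
    have hρm : ρ ≤ m := by
      rw [← hR1]
      have := Submodule.finrank_le R
      rwa [Module.finrank_fintype_fun_eq_card, Fintype.card_fin] at this
    obtain ⟨κ₁, h1, h2⟩ := Pool.Agent.Y787.AS.var_lower l F A R hR2
    obtain ⟨κ₂, h3⟩ := Pool.Agent.Y787.AS.varP_count hL' hρm l hl hli F
      (fun A' R' h => hmax ⟨A', R', rfl, h⟩)
    refine ⟨κ₁ + κ₂, fun H hH => ⟨?_, ?_⟩⟩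
    · have h4 := h2 H (by omega)
      rw [hR1] at h4
      exact h4.trans (Nat.mul_le_mul_right _ (by omega))
    · exact (h3 H (by omega)).trans (Nat.mul_le_mul_right _ (by omega))
  · intro W _ hW ρ hρ φ
    obtain ⟨P, h1, h2⟩ := Pool.Agent.Y787.AS.varP_dim hL' W hW hρ F φ
    exact ⟨P, h1, fun y hy => h2 y hy.1 hy.2⟩

end Pool.Agent.Results.MP_c50dba_nt.ExpectedExponent
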