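import Pool.Agent.Y916.Om.PBox

/-!
# `p`-adic Schanuel conjecture: logarithms of integers in boxes of residue classes

Let `k`, `δ`, `d`, `D` be arbitrary. There is an exponent `E` such that for every prime `p`, all residue classes
`v_i` modulo `p^(e_i)`, prime to `p`, and every `H` with `(H + 2)^E ≤ p^(e_i)` at most
`(k (D + 1) + k (k - 1) / 2) H^(k - 1)` of the `H^k` tuples `n_i = v_i + g_i p^(e_i)`, `1 ≤ g_i ≤ H`, have `p`-adic
logarithms `log_p n_1, …, log_p n_k` which satisfy a nontrivial polynomial relation of degree at most `δ` whose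
coefficients are combinations of `D` arbitrary given `p`-adic numbers over some number field of degree at most `d`.
The number of exceptions depends neither on `p` nor on `δ` nor on `d`, and its order `H^(k - 1)` and its growth with `D`
are the right ones (a coefficient space may contain `log_p n_1` for `D` integers `n_1`).

The proof (`Pool/Agent/Y916/Om/`, with `Pool/Agent/Y921/PW/` by helper921): the values of the series `log (1 + g z)` at
`z = p^e / v` satisfy no relation of small degree over `ℚ` if `p^e` is large in terms of `H` (method of `G`-functions with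
the product formula); Hilbert functions give windows of length `H` with at most `τ` exceptions for relations over
`τ` arbitrary constants, with one exceptional set for all number fields of degree at most `d`; induction on `k`.
-/

set_option autoImplicit false

namespace Pool.Agent.Results.MP_c50dba_nt.ResidueBoxes

open Module

/-- `L` is an Iwasawa `p`-adic logarithm on the field `A ⊇ ℚ_p` (for example the algebraic closure of `ℚ_p`, or `ℂ_p`). -/
def IsIwasawaLog (p : ℕ) [Fact p.Prime] (A : Type) [NormedField A] [NormedAlgebra ℚ_[p] A] (L : A → A) : Prop :=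
  (∀ x y : A, x ≠ 0 → y ≠ 0 → L (x * y) = L x + L y) ∧ L ((p : ℕ) : A) = 0 ∧
  ∀ z : A, ‖z‖ < 1 → HasSum (fun n : ℕ => (-1 : A) ^ n * z ^ (n + 1) / ((n : A) + 1)) (L (1 + z))

/-- The numbers `x_i` satisfy a nontrivial polynomial relation of degree at most `δ` whose coefficients are linear
combinations of elements of `V` over some number field of degree at most `d`. -/
def HasRelation {A : Type} [Field A] [CharZero A] {ι : Type} (δ d : ℕ) (V : Submodule ℚ A) (x : ι → A) : Prop :=
  ∃ K : IntermediateField ℚ A, FiniteDimensional ℚ K ∧ finrank ℚ K ≤ d ∧ ∃ P : MvPolynomial ι A, P ≠ 0 ∧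
    P.totalDegree ≤ δ ∧ (∀ s, P.coeff s ∈ Submodule.span K (V : Set A)) ∧ MvPolynomial.aeval x P = 0

open Classical in
/-- **Main result.** -/
theorem result (k δ d D : ℕ) : ∃ E : ℕ,
    ∀ (p : ℕ) [Fact p.Prime] (A : Type) [NormedField A] [NormedAlgebra ℚ_[p] A] [CharZero A] (L : A → A),
    IsIwasawaLog p A L → ∀ V : Submodule ℚ A, Module.Finite ℚ V → finrank ℚ V ≤ D →
    ∀ (H : ℕ) (e v : Fin k → ℕ), (∀ i, (H + 2) ^ E ≤ p ^ e i ∧ ¬ p ∣ v i ∧ v i ≤ p ^ e i) →
      ((Fintype.piFinset fun _ : Fin k => Finset.Icc 1 H).filter fun g =>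
        HasRelation δ d V (fun i => L ((v i + g i * p ^ e i : ℕ) : A))).card ≤
          (k * (D + 1) + k.choose 2) * H ^ (k - 1) := by
  obtain ⟨E, hE⟩ := Pool.Agent.Y916.Om.pbox k δ d D
  exact ⟨E, fun p _ A _ _ _ L hL V hV hVD H e v hev => hE p A L ⟨hL.1, hL.2.1, hL.2.2⟩ V hV hVD H e v hev⟩

end Pool.Agent.Results.MP_c50dba_nt.ResidueBoxes
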